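import Mathlib

set_option autoImplicit false

namespace Pool.Agent.Results.MP_55559b_an.NotExposed

open Matrix

/-- the spectrahedral cone of a tuple of matrices -/
def spec {n m : ℕ} (A : Fin n → Matrix (Fin m) (Fin m) ℝ) : Set (Fin n → ℝ) :=
  {x | (∑ i, x i • A i).PosSemidef}

/-- `F` is a face of the cone `K` -/
def IsFace {n : ℕ} (K F : Set (Fin n → ℝ)) : Prop :=
  IsClosed F ∧ F ⊆ K ∧ 0 ∈ F ∧ (∀ x ∈ F, ∀ y ∈ F, x + y ∈ F) ∧
    (∀ x ∈ F, ∀ a : ℝ, 0 ≤ a → a • x ∈ F) ∧ ∀ x ∈ K, ∀ y ∈ K, x + y ∈ F → x ∈ F ∧ y ∈ F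

def M (x : Fin 5 → ℝ) : Matrix (Fin 6) (Fin 6) ℝ :=
  !![x 0 + x 1, 0, 0, 0, 0, 0; 0, x 0 - x 1, 0, 0, 0, 0; 0, 0, x 0 + x 2, 0, 0, 0;
    0, 0, 0, x 0 - x 2 + x 4, 0, 0; 0, 0, 0, 0, x 3, x 4; 0, 0, 0, 0, x 4, x 0]

def A (i : Fin 5) : Matrix (Fin 6) (Fin 6) ℝ := M (Pi.single i 1)

lemma symm (x : Fin 5 → ℝ) : (M x).IsSymm := by
  ext i j
  fin_cases i <;> fin_cases j <;> rfl

lemma sum_eq (x : Fin 5 → ℝ) : ∑ i, x i • A i = M x := by
  ext i j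
  fin_cases i <;> fin_cases j <;> simp [A, M, Fin.sum_univ_succ, Matrix.sum_apply] <;> ring

lemma mem_iff (x : Fin 5 → ℝ) : x ∈ spec A ↔ ∀ v : Fin 6 → ℝ,
    0 ≤ (x 0 + x 1) * v 0 ^ 2 + (x 0 - x 1) * v 1 ^ 2 + (x 0 + x 2) * v 2 ^ 2 +
      (x 0 - x 2 + x 4) * v 3 ^ 2 + (x 3 * v 4 ^ 2 + 2 * x 4 * v 4 * v 5 + x 0 * v 5 ^ 2) := by
  change (∑ i, x i • A i).PosSemidef ↔ _
  rw [sum_eq, posSemidef_iff_dotProduct_mulVec,
    and_iff_right (show (M x).IsHermitian from symm x)]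
  refine forall_congr' fun v => iff_of_eq (congrArg _ ?_)
  simp [M, dotProduct, mulVec, Fin.sum_univ_succ]
  ring

lemma mem_of {x : Fin 5 → ℝ} {e : ℝ} (h0 : x 0 = 1) (h1 : |x 1| ≤ 1) (h2 : -1 ≤ x 2)
    (h2' : x 2 ≤ 1 + e) (h3 : x 3 = e ^ 2) (h4 : x 4 = e) : x ∈ spec A := by
  rw [mem_iff, h0, h3, h4]
  intro v
  have a1 := mul_nonneg (show 0 ≤ 1 + x 1 by linarith [(abs_le.1 h1).1]) (sq_nonneg (v 0))
  have a2 := mul_nonneg (show 0 ≤ 1 - x 1 by linarith [(abs_le.1 h1).2]) (sq_nonneg (v 1))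
  have a3 := mul_nonneg (show 0 ≤ 1 + x 2 by linarith) (sq_nonneg (v 2))
  have a4 := mul_nonneg (show 0 ≤ 1 - x 2 + e by linarith) (sq_nonneg (v 3))
  nlinarith [sq_nonneg (e * v 4 + v 5)]

lemma of_mem {x : Fin 5 → ℝ} (h : x ∈ spec A) : 0 ≤ x 0 + x 1 ∧ 0 ≤ x 0 - x 1 ∧ 0 ≤ x 0 + x 2 ∧
    0 ≤ x 0 - x 2 + x 4 ∧ 0 ≤ x 3 ∧ (x 3 = 0 → x 4 = 0) := by
  rw [mem_iff] at h
  refine ⟨by simpa using h (Pi.single 0 1), by simpa using h (Pi.single 1 1),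
    by simpa using h (Pi.single 2 1), by simpa using h (Pi.single 3 1),
    by simpa using h (Pi.single 4 1), fun h3 => ?_⟩
  by_contra h4
  have := h ![0, 0, 0, 0, -(x 0 + 1) / (2 * x 4), 1]
  simp only [h3, cons_val_zero, cons_val_one, cons_val] at this
  rw [mul_div_cancel₀ _ (mul_ne_zero two_ne_zero h4)] at this
  linarith

/-- A spectrahedral cone with a face that is not projectionally exposed. -/
theorem result : ∃ (n m : ℕ) (A : Fin n → Matrix (Fin m) (Fin m) ℝ), (∀ i, (A i).IsSymm) ∧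
    ∃ F : Set (Fin n → ℝ), IsFace (spec A) F ∧
      ∀ P : (Fin n → ℝ) →ₗ[ℝ] (Fin n → ℝ), P ∘ₗ P = P → P '' spec A ≠ F := by
  refine ⟨5, 6, A, fun i => symm _, {x | x ∈ spec A ∧ x 3 = 0}, ⟨?_, fun x hx => hx.1,
    ⟨(mem_iff 0).2 fun v => by simp, rfl⟩, fun x hx y hy => ⟨(mem_iff _).2 fun v => ?_, ?_⟩,
    fun x hx a ha => ⟨(mem_iff _).2 fun v => ?_, ?_⟩, fun x hx y hy h => ?_⟩, fun P hP h => ?_⟩
  · simp only [mem_iff, Set.ofPred_and, Set.ofPred_forall]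
    exact (isClosed_iInter fun v => isClosed_le continuous_const (by fun_prop)).inter
      (isClosed_eq (by fun_prop) continuous_const)
  · simp only [Pi.add_apply]
    linarith [(mem_iff _).1 hx.1 v, (mem_iff _).1 hy.1 v]
  · rw [Pi.add_apply, hx.2, hy.2, add_zero]
  · simp only [Pi.smul_apply, smul_eq_mul]
    linarith [mul_nonneg ha ((mem_iff _).1 hx.1 v)]
  · rw [Pi.smul_apply, hx.2, smul_zero]
  · have h1 : x 3 + y 3 = 0 := h.2
    have h2 := (of_mem hx).2.2.2.2.1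
    have h3 := (of_mem hy).2.2.2.2.1
    exact ⟨⟨hx, by linarith⟩, hy, by linarith⟩
  · have fix : ∀ x ∈ spec A, x 3 = 0 → P x = x := fun x hx h3 => by
      obtain ⟨y, -, rfl⟩ := h.ge (show x ∈ {x | x ∈ spec A ∧ x 3 = 0} from ⟨hx, h3⟩)
      exact LinearMap.congr_fun hP y
    have img : ∀ x ∈ spec A, 0 ≤ P x 0 + P x 1 ∧ 0 ≤ P x 0 - P x 1 ∧ 0 ≤ P x 0 + P x 2 ∧
        0 ≤ P x 0 - P x 2 := fun x hx => by
      have h1 := h.le ⟨x, hx, rfl⟩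
      obtain ⟨a, b, c, d, -, e⟩ := of_mem h1.1
      exact ⟨a, b, c, by linarith [e h1.2]⟩
    have f : ∀ a b : ℝ, |a| ≤ 1 → |b| ≤ 1 → P ![1, a, b, 0, 0] = ![1, a, b, 0, 0] :=
      fun a b ha hb => fix _ (mem_of (e := 0) rfl ha (abs_le.1 hb).1
        (by simpa using (abs_le.1 hb).2) (by simp) rfl) rfl
    have f0 := f 0 0 (by simp) (by simp)
    have f1 := f 1 0 (by simp) (by simp)
    have f2 := f 0 1 (by simp) (by simp)
    have g : ∀ a b e : ℝ, ∀ i, P ![1, a, b, e ^ 2, e] i = ![1, a, b, 0, 0] i +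
        e ^ 2 * P ![0, 0, 0, 1, 0] i + e * P ![0, 0, 0, 0, 1] i := fun a b e i => by
      have k1 : ![1, a, b, 0, 0] = (1 - a - b) • ![1, 0, 0, 0, 0] + a • ![1, 1, 0, 0, 0] +
          b • ![1, 0, 1, 0, 0] := by
        ext j
        fin_cases j <;> simp
        ring
      have k2 : ![1, a, b, e ^ 2, e] = ![1, a, b, 0, 0] + e ^ 2 • ![0, 0, 0, 1, 0] +
          e • ![0, 0, 0, 0, 1] := by
        ext j
        fin_cases j <;> simp
      have k3 : P ![1, a, b, 0, 0] = ![1, a, b, 0, 0] := by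
        rw [k1, map_add, map_add, map_smul, map_smul, map_smul, f0, f1, f2]
      rw [k2, map_add, map_add, map_smul, map_smul, k3]
      rfl
    set s := P ![0, 0, 0, 1, 0] 0
    have hs : 0 < 4 * |s| + 1 := by positivity
    obtain ⟨e, e0, he⟩ : ∃ e : ℝ, 0 < e ∧ e * (4 * |s| + 1) = 1 :=
      ⟨1 / (4 * |s| + 1), by positivity, by field_simp⟩
    have e1 : e ≤ 1 := by nlinarith [abs_nonneg s]
    have k1 := (img ![1, -1, 0, (-e) ^ 2, -e]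
      (mem_of rfl (by simp) (by simp) (by simpa) rfl rfl)).1
    have k2 := (img ![1, 1, 0, (-e) ^ 2, -e]
      (mem_of rfl (by simp) (by simp) (by simpa) rfl rfl)).2.1
    have k3 := (img ![1, 0, -1, e ^ 2, e]
      (mem_of rfl (by simp) (by simp) (by simp; linarith) rfl rfl)).2.2.1
    have k4 := (img ![1, 0, 1 + e, e ^ 2, e]
      (mem_of rfl (by simp) (by simp; linarith) (by simp) rfl rfl)).2.2.2
    simp only [g, cons_val_zero, cons_val_one, cons_val] at k1 k2 k3 k4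
    have k5 : 0 ≤ e * (4 * e * s - 1) := by linarith
    have k6 := nonneg_of_mul_nonneg_right k5 e0
    nlinarith [le_abs_self s]

end Pool.Agent.Results.MP_55559b_an.NotExposed
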